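import Pool.Agent.H83.EX.Defs

/-!
# The Kakutani 5x+1 map: the starting values whose orbit exceeds `L n` within `i` steps and stays above `n` until then
have a natural density

On a residue class modulo `6 ^ i` the iterates up to `i` are affine functions.
-/

set_option autoImplicit false

namespace Pool.Agent.H87.KD

open Pool.Agent.H83.EX Filter

/-- the orbit of `n` exceeds `L n` within `i` steps and does not fall below `n` until then -/
def RiseIn (L : ℝ) (i n : ℕ) : Prop :=
  ∃ j : ℕ, j ≤ i ∧ L * n < (C^[j] n : ℝ) ∧ ∀ l : ℕ, l ≤ j → n ≤ C^[l] n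

private theorem C_add (r K : ℕ) : C (r + 6 * K) =
    if r % 2 = 0 then r / 2 + 3 * K else if r % 3 = 0 then r / 3 + 2 * K else 5 * r + 1 + 30 * K := by
  unfold C
  by_cases h2 : r % 2 = 0
  · rw [if_pos (by omega), if_pos h2]
    omega
  · rw [if_neg (by omega), if_neg h2]
    by_cases h3 : r % 3 = 0
    · rw [if_pos (by omega), if_pos h3]
      omega
    · rw [if_neg (by omega), if_neg h3]
      ring

private theorem affine (j : ℕ) : ∀ r q : ℕ, ∃ a b : ℕ, ∀ s : ℕ, C^[j] (r + 6 ^ j * q * s) = a + b * s := by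
  induction j with
  | zero =>
    intro r q
    refine ⟨r, q, fun s => ?_⟩
    rw [Function.iterate_zero_apply, pow_zero, one_mul]
  | succ j ih =>
    intro r q
    have e : ∀ s, 6 ^ (j + 1) * q * s = 6 * (6 ^ j * q * s) := fun s => by ring
    by_cases h2 : r % 2 = 0
    · obtain ⟨a, b, h⟩ := ih (r / 2) (3 * q)
      refine ⟨a, b, fun s => ?_⟩
      have e2 : 3 * (6 ^ j * q * s) = 6 ^ j * (3 * q) * s := by ring
      rw [Function.iterate_succ_apply, e, C_add, if_pos h2, e2, h]
    · by_cases h3 : r % 3 = 0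
      · obtain ⟨a, b, h⟩ := ih (r / 3) (2 * q)
        refine ⟨a, b, fun s => ?_⟩
        have e2 : 2 * (6 ^ j * q * s) = 6 ^ j * (2 * q) * s := by ring
        rw [Function.iterate_succ_apply, e, C_add, if_neg h2, if_pos h3, e2, h]
      · obtain ⟨a, b, h⟩ := ih (5 * r + 1) (30 * q)
        refine ⟨a, b, fun s => ?_⟩
        have e2 : 30 * (6 ^ j * q * s) = 6 ^ j * (30 * q) * s := by ring
        rw [Function.iterate_succ_apply, e, C_add, if_neg h2, if_neg h3, e2, h]

private theorem affine' {i j : ℕ} (hj : j ≤ i) (r : ℕ) :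
    ∃ a b : ℕ, ∀ s : ℕ, C^[j] (r + 6 ^ i * s) = a + b * s := by
  obtain ⟨a, b, h⟩ := affine j r (6 ^ (i - j))
  refine ⟨a, b, fun s => ?_⟩
  rw [← h s, ← pow_add, Nat.add_sub_cancel' hj]

/-- eventually true or eventually false -/
private def Ev (P : ℕ → Prop) : Prop := ∃ b : Prop, ∀ᶠ s in atTop, (P s ↔ b)

private theorem ev_congr {P Q : ℕ → Prop} (h : ∀ s, P s ↔ Q s) (hQ : Ev Q) : Ev P := by
  obtain ⟨b, hb⟩ := hQ
  exact ⟨b, hb.mono fun s hs => (h s).trans hs⟩

private theorem ev_and {P Q : ℕ → Prop} (hP : Ev P) (hQ : Ev Q) : Ev fun s => P s ∧ Q s := by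
  obtain ⟨b, hb⟩ := hP
  obtain ⟨c, hc⟩ := hQ
  exact ⟨b ∧ c, (hb.and hc).mono fun s h => and_congr h.1 h.2⟩

private theorem ev_not {P : ℕ → Prop} (hP : Ev P) : Ev fun s => ¬ P s := by
  obtain ⟨b, hb⟩ := hP
  exact ⟨¬ b, hb.mono fun s h => not_congr h⟩

private theorem ev_fin (i : ℕ) (P : ℕ → ℕ → Prop) (h : ∀ l, l ≤ i → Ev (P l)) :
    ∃ b : ℕ → Prop, ∀ᶠ s in atTop, ∀ l, l ≤ i → (P l s ↔ b l) := by
  induction i with
  | zero =>
    obtain ⟨b, hb⟩ := h 0 le_rfl
    refine ⟨fun _ => b, hb.mono fun s hs l hl => ?_⟩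
    rw [Nat.le_zero.1 hl]
    exact hs
  | succ i ih =>
    obtain ⟨b, hb⟩ := ih fun l hl => h l (by omega)
    obtain ⟨c, hc⟩ := h (i + 1) le_rfl
    refine ⟨fun l => if l = i + 1 then c else b l, (hb.and hc).mono fun s hs l hl => ?_⟩
    show P l s ↔ if l = i + 1 then c else b l
    by_cases h1 : l = i + 1
    · rw [if_pos h1, h1]
      exact hs.2
    · rw [if_neg h1]
      exact hs.1 l (by omega)

private theorem ev_all (i : ℕ) (P : ℕ → ℕ → Prop) (h : ∀ l, l ≤ i → Ev (P l)) :
    Ev fun s => ∀ l, l ≤ i → P l s := by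
  obtain ⟨b, hb⟩ := ev_fin i P h
  exact ⟨∀ l, l ≤ i → b l, hb.mono fun s hs =>
    ⟨fun h1 l hl => (hs l hl).1 (h1 l hl), fun h1 l hl => (hs l hl).2 (h1 l hl)⟩⟩

private theorem ev_ex (i : ℕ) (P : ℕ → ℕ → Prop) (h : ∀ l, l ≤ i → Ev (P l)) :
    Ev fun s => ∃ l, l ≤ i ∧ P l s := by
  obtain ⟨b, hb⟩ := ev_fin i P h
  exact ⟨∃ l, l ≤ i ∧ b l, hb.mono fun s hs =>
    ⟨fun ⟨l, hl, h1⟩ => ⟨l, hl, (hs l hl).1 h1⟩, fun ⟨l, hl, h1⟩ => ⟨l, hl, (hs l hl).2 h1⟩⟩⟩

private theorem ev_lt (α β γ δ : ℝ) : Ev fun s : ℕ => α + β * s < γ + δ * s := by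
  rcases lt_trichotomy β δ with h | h | h
  · have h1 : Tendsto (fun s : ℕ => (δ - β) * (s : ℝ)) atTop atTop :=
      tendsto_natCast_atTop_atTop.const_mul_atTop (sub_pos.2 h)
    exact ⟨True, (h1.eventually_gt_atTop (α - γ)).mono fun s hs => ⟨fun _ => trivial, fun _ => by linarith⟩⟩
  · exact ⟨α < γ, Eventually.of_forall fun s => ⟨fun h1 => by rw [h] at h1; linarith, fun h1 => by rw [h]; linarith⟩⟩
  · have h1 : Tendsto (fun s : ℕ => (β - δ) * (s : ℝ)) atTop atTop :=
      tendsto_natCast_atTop_atTop.const_mul_atTop (sub_pos.2 h)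
    exact ⟨False, (h1.eventually_gt_atTop (γ - α)).mono fun s hs => ⟨fun h2 => by linarith, fun h2 => h2.elim⟩⟩

private theorem ev_rise (L : ℝ) (i r : ℕ) : Ev fun s => RiseIn L i (r + 6 ^ i * s) := by
  refine ev_ex i (fun j s => L * ((r + 6 ^ i * s : ℕ) : ℝ) < (C^[j] (r + 6 ^ i * s) : ℝ) ∧
    ∀ l : ℕ, l ≤ j → r + 6 ^ i * s ≤ C^[l] (r + 6 ^ i * s)) fun j hj => ev_and ?_ (ev_all j _ fun l hl => ?_)
  · obtain ⟨a, b, h⟩ := affine' hj r
    refine ev_congr (fun s => ?_) (ev_lt (L * r) (L * 6 ^ i) a b)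
    rw [h s]
    push_cast
    have e : L * ((r : ℝ) + 6 ^ i * s) = L * r + L * 6 ^ i * s := by ring
    rw [e]
  · obtain ⟨a, b, h⟩ := affine' (hl.trans hj) r
    refine ev_congr (fun s => ?_) (ev_not (ev_lt a b r (6 ^ i)))
    rw [h s, not_lt]
    exact_mod_cast Iff.rfl

/-- a bounded distance to a linear function -/
private theorem tendsto_of_bdd (c : ℕ → ℝ) (g K : ℝ) (h : ∀ N : ℕ, |c N - g * N| ≤ K) :
    Tendsto (fun N : ℕ => c N / N) atTop (nhds g) := by
  have h1 : Tendsto (fun N : ℕ => K / (N : ℝ)) atTop (nhds 0) := tendsto_const_div_atTop_nhds_zero_nat K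
  refine tendsto_iff_norm_sub_tendsto_zero.2 (squeeze_zero' (Eventually.of_forall fun _ => norm_nonneg _) ?_ h1)
  filter_upwards [eventually_gt_atTop 0] with N hN
  have h2 : (0 : ℝ) < N := by exact_mod_cast hN
  have h3 : c N / N - g = (c N - g * N) / N := by
    rw [sub_div, mul_div_assoc, div_self h2.ne', mul_one]
  rw [h3, norm_div, Real.norm_eq_abs, Real.norm_eq_abs, abs_of_pos h2]
  exact div_le_div_of_nonneg_right (h N) h2.le

open Classical in
private theorem count_per (M : ℕ) (b : ℕ → Prop) (k : ℕ) :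
    ((Finset.range (M * k)).filter fun n => b (n % M)).card = k * ((Finset.range M).filter fun n => b n).card := by
  induction k with
  | zero => rw [mul_zero, Finset.range_zero, Finset.filter_empty, Finset.card_empty, zero_mul]
  | succ k ih =>
    have h1 : ((Finset.range (M * (k + 1))).filter fun n => b (n % M)) =
        ((Finset.range (M * k)).filter fun n => b (n % M)) ∪
          (((Finset.range M).filter fun n => b n).image fun n => M * k + n) := by
      ext n
      rw [Finset.mem_union, Finset.mem_filter, Finset.mem_filter, Finset.mem_image, Finset.mem_range, Finset.mem_range]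
      constructor
      · rintro ⟨h1, h2⟩
        by_cases h3 : n < M * k
        · exact Or.inl ⟨h3, h2⟩
        · right
          have h4 : n - M * k < M := by
            rw [mul_add, mul_one] at h1
            omega
          have h5 : n % M = n - M * k := by
            have h6 : n = n - M * k + M * k := by omega
            rw [h6, Nat.add_mul_mod_self_left, Nat.add_sub_cancel, Nat.mod_eq_of_lt h4]
          refine ⟨n - M * k, Finset.mem_filter.2 ⟨Finset.mem_range.2 h4, ?_⟩, by omega⟩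
          rw [← h5]
          exact h2
      · rintro (⟨h1, h2⟩ | ⟨m, hm, rfl⟩)
        · refine ⟨h1.trans_le (Nat.mul_le_mul_left _ (Nat.le_succ _)), h2⟩
        · obtain ⟨h3, h4⟩ := Finset.mem_filter.1 hm
          rw [Finset.mem_range] at h3
          refine ⟨?_, ?_⟩
          · rw [mul_add, mul_one]
            omega
          · rw [add_comm, Nat.add_mul_mod_self_left, Nat.mod_eq_of_lt h3]
            exact h4
    rw [h1, Finset.card_union_of_disjoint, ih, Finset.card_image_of_injective _ (add_right_injective _)]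
    · ring
    · rw [Finset.disjoint_left]
      intro n hn hn'
      obtain ⟨m, _, h3⟩ := Finset.mem_image.1 hn'
      have h4 := Finset.mem_range.1 (Finset.mem_filter.1 hn).1
      omega

open Classical in
private theorem dens (M : ℕ) (hM : 0 < M) (b f : ℕ → Prop) (n0 : ℕ) (h : ∀ n, n0 ≤ n → (f n ↔ b (n % M))) :
    ∃ d : ℝ, Tendsto (fun N : ℕ => ((((Finset.Icc 1 N).filter (fun n => f n)).card : ℕ) : ℝ) / N) atTop (nhds d) := by
  obtain ⟨G, hG⟩ : ∃ G, G = ((Finset.range M).filter fun n => b n).card := ⟨_, rfl⟩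
  have hM' : (0 : ℝ) < M := by exact_mod_cast hM
  refine ⟨G / M, tendsto_of_bdd _ _ (n0 + 2 * M + 1) fun N => ?_⟩
  have hk := count_per M b (N / M)
  rw [← hG] at hk
  have hN : M * (N / M) + N % M = N := Nat.div_add_mod N M
  have hlt : N % M < M := Nat.mod_lt _ hM
  have hGM : G ≤ M := by
    rw [hG]
    exact (Finset.card_filter_le _ _).trans (le_of_eq (Finset.card_range M))
  have h1 : ((Finset.Icc 1 N).filter (fun n => f n)).card ≤ N / M * G + (n0 + M + 1) := by
    have h2 : (Finset.Icc 1 N).filter (fun n => f n) ⊆ ((Finset.range (M * (N / M))).filter fun n => b (n % M)) ∪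
        (Finset.range n0 ∪ Finset.Ico (M * (N / M)) (M * (N / M) + M)) := by
      intro n hn
      obtain ⟨h3, h4⟩ := Finset.mem_filter.1 hn
      rw [Finset.mem_Icc] at h3
      rw [Finset.mem_union, Finset.mem_union, Finset.mem_filter, Finset.mem_range, Finset.mem_range, Finset.mem_Ico]
      by_cases h5 : n < n0
      · exact Or.inr (Or.inl h5)
      · by_cases h6 : n < M * (N / M)
        · exact Or.inl ⟨h6, (h n (by omega)).1 h4⟩
        · exact Or.inr (Or.inr (by omega))
    refine (Finset.card_le_card h2).trans ((Finset.card_union_le _ _).trans ?_)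
    rw [hk]
    refine Nat.add_le_add_left ((Finset.card_union_le _ _).trans ?_) _
    rw [Finset.card_range, Nat.card_Ico]
    omega
  have h1' : N / M * G ≤ ((Finset.Icc 1 N).filter (fun n => f n)).card + (n0 + 1) := by
    have h2 : ((Finset.range (M * (N / M))).filter fun n => b (n % M)) ⊆ (Finset.Icc 1 N).filter (fun n => f n) ∪
        Finset.range (n0 + 1) := by
      intro n hn
      obtain ⟨h3, h4⟩ := Finset.mem_filter.1 hn
      rw [Finset.mem_range] at h3
      rw [Finset.mem_union, Finset.mem_filter, Finset.mem_range, Finset.mem_Icc]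
      by_cases h5 : n < n0 + 1
      · exact Or.inr h5
      · exact Or.inl ⟨by omega, (h n (by omega)).2 h4⟩
    rw [← hk]
    refine (Finset.card_le_card h2).trans ((Finset.card_union_le _ _).trans ?_)
    rw [Finset.card_range]
  have h2 : (((Finset.Icc 1 N).filter (fun n => f n)).card : ℝ) ≤ (N / M : ℕ) * G + (n0 + M + 1) := by
    exact_mod_cast h1
  have h2' : ((N / M : ℕ) : ℝ) * G ≤ (((Finset.Icc 1 N).filter (fun n => f n)).card : ℝ) + (n0 + 1) := by
    exact_mod_cast h1'
  have hN' : (M : ℝ) * (N / M : ℕ) + (N % M : ℕ) = N := by exact_mod_cast hN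
  have h3 : (G : ℝ) / M * N = (N / M : ℕ) * G + G / M * (N % M : ℕ) := by
    rw [← hN', mul_add]
    have e : (G : ℝ) / M * (M * (N / M : ℕ)) = (N / M : ℕ) * G := by
      rw [← mul_assoc, div_mul_cancel₀ _ hM'.ne', mul_comm]
    rw [e]
  have h4 : (0 : ℝ) ≤ G / M * (N % M : ℕ) := by positivity
  have h5 : (G : ℝ) / M * (N % M : ℕ) ≤ M := by
    have h6 : (G : ℝ) / M ≤ 1 := by
      rw [div_le_one hM']
      exact_mod_cast hGM
    have h7 : ((N % M : ℕ) : ℝ) ≤ M := by exact_mod_cast hlt.le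
    calc (G : ℝ) / M * (N % M : ℕ) ≤ 1 * M := mul_le_mul h6 h7 (Nat.cast_nonneg _) zero_le_one
      _ = M := one_mul _
  rw [abs_le, h3]
  constructor
  · have : (0 : ℝ) ≤ n0 := Nat.cast_nonneg _
    linarith
  · linarith

open Classical in
/-- the density exists -/
theorem lim_riseIn (L : ℝ) (i : ℕ) : ∃ d : ℝ, Filter.Tendsto
    (fun N : ℕ => ((((Finset.Icc 1 N).filter (fun n => RiseIn L i n)).card : ℕ) : ℝ) / N)
    Filter.atTop (nhds d) := by
  obtain ⟨b, hb⟩ := ev_fin (6 ^ i) (fun r s => RiseIn L i (r + 6 ^ i * s)) fun r _ => ev_rise L i r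
  obtain ⟨s0, hs0⟩ := eventually_atTop.1 hb
  have hM : 0 < 6 ^ i := by positivity
  refine dens (6 ^ i) hM b _ (6 ^ i * s0) fun n hn => ?_
  have h1 : n % 6 ^ i + 6 ^ i * (n / 6 ^ i) = n := Nat.mod_add_div n (6 ^ i)
  have h2 : s0 ≤ n / 6 ^ i := (Nat.le_div_iff_mul_le hM).2 (by rw [mul_comm]; exact hn)
  have h3 := hs0 (n / 6 ^ i) h2 (n % 6 ^ i) (Nat.mod_lt _ hM).le
  rw [h1] at h3
  exact h3

end Pool.Agent.H87.KD
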